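import Mathlib
import Pool.Agent.H990R2.SF.Dual

/-!
Weighted connected spanning subgraphs of planar graphs: two edges on a common face are negatively
correlated.
-/

namespace Pool.Agent.Results.MP_84f020_co.CommonFace

open Finset

/-- The spanning subgraph of the multigraph `G` (edge set `ι`, endpoints `G i`) with edge set `F` is
connected. -/
def ConnectedSub {V ι : Type*} (G : ι → Sym2 V) (F : Finset ι) : Prop :=
  (SimpleGraph.fromEdgeSet (G '' (F : Set ι))).Connected

/-- `F` is a forest of the multigraph `H`: no loop, no two parallel edges, and no cycle in the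
simple graph spanned by `F`. -/
def ForestSub {W ι : Type*} (H : ι → Sym2 W) (F : Finset ι) : Prop :=
  (∀ i ∈ F, ¬ (H i).IsDiag) ∧ Set.InjOn H (F : Set ι) ∧
    (SimpleGraph.fromEdgeSet (H '' (F : Set ι))).IsAcyclic

/-- `H` is an abstract dual of `G` (same edges): `F` spans a connected subgraph of `G` exactly when
the complementary edges form a forest of `H`. The planar dual of a connected plane graph is such
an `H`. -/
def IsDual {V W ι : Type*} [Fintype ι] [DecidableEq ι] (G : ι → Sym2 V) (H : ι → Sym2 W) : Prop :=
  ∀ F : Finset ι, ConnectedSub G F ↔ ForestSub H Fᶜ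

open Classical in
/-- `K G p S` is the sum of `∏ i ∈ F, p i` over all `F ⊇ S` that span a connected subgraph. -/
noncomputable def K {V ι : Type*} [Fintype ι] (G : ι → Sym2 V) (p : ι → ℝ) (S : Finset ι) : ℝ :=
  ∑ F ∈ (univ : Finset (Finset ι)) with S ⊆ F ∧ ConnectedSub G F, ∏ i ∈ F, p i

/-- **Two edges of a planar graph that lie on a common face (their dual edges share the endpoint
`v`) are negatively correlated in the weighted random connected spanning subgraph.** -/
theorem result {V W ι : Type*} [Fintype W] [Fintype ι] [DecidableEq ι] (G : ι → Sym2 V)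
    (H : ι → Sym2 W) (hGH : IsDual G H) (p : ι → ℝ) (hp : ∀ i, 0 < p i) (v : W) (e f : ι)
    (hef : e ≠ f) (he : v ∈ H e) (hf : v ∈ H f) :
    K G p ∅ * K G p {e, f} ≤ K G p {e} * K G p {f} := by
  classical
  have h := H990SF.dual_star (ConnectedSub G) H (fun F => hGH F) p hp v e f hef he hf
  have hK : ∀ X : Finset ι, K G p X = H990SF.KX (ConnectedSub G) p X := by
    intro X
    unfold K H990SF.KX
    refine Finset.sum_congr ?_ fun _ _ => rfl
    ext F
    constructor
    · intro h; simp only [Finset.mem_filter] at h ⊢; exact h
    · intro h; simp only [Finset.mem_filter] at h ⊢; exact h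
  rw [hK, hK, hK, hK]
  exact h

end Pool.Agent.Results.MP_84f020_co.CommonFace
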